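import Mathlib
import Pool.Agent.V11313.CU.Descent

set_option autoImplicit false

/-!
# Cut capacities of odd perfect numbers (MP_f02ea4_nt)

Let `N` be an odd perfect number. Draw an arc from the prime factor `a` to the prime factor `b` when
`b` divides `σ(a ^ v_a(N))`, with capacity `log` of the `b`-part of `σ(a ^ v_a(N))`. A set of prime
factors is the set of prime factors of a unitary divisor `D` of `N`, and the capacity of the cut
which it defines is `log gcd (σ(D), N / D)`. We show that the capacities of the two directions of a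
cut differ by less than `log 2`, that they are bounded below in terms of the sizes and of the
exponents of both sides, and hence that the digraph is strongly connected.
-/

open Finset

namespace Pool.Agent.Results.MP_f02ea4_nt.CutCapacities

/-- the sum of the divisors of `n` -/
def sig (n : ℕ) : ℕ := ∑ d ∈ n.divisors, d

/-- the product of `4 v / (v + 1)` over the prime factors of `n`, `v` the exponent of the prime
in `n` -/
noncomputable def expo (n : ℕ) : ℝ :=
  ∏ p ∈ n.primeFactors, 4 * (n.factorization p : ℝ) / (n.factorization p + 1)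

open Pool.Agent.V11313.CU

theorem sig_gt {n : ℕ} (hn : 1 < n) : n < sig n := by
  unfold sig
  rw [Nat.sum_divisors_eq_sum_properDivisors_add_self]
  have h1 : 1 ∈ n.properDivisors := Nat.mem_properDivisors.2 ⟨one_dvd _, hn⟩
  have h2 : 1 ≤ ∑ i ∈ n.properDivisors, i :=
    Finset.single_le_sum (f := fun i => i) (fun _ _ => Nat.zero_le _) h1
  omega

theorem dat {D n d : ℕ} (hD : 1 < D) (hodd : Odd D) (hn : 0 < n) (hd : 0 < d)
    (h : d * sig D = n * D) : Dat n d D.primeFactors D.factorization := by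
  have hD0 : D ≠ 0 := by omega
  refine ⟨fun p hp => Nat.prime_of_mem_primeFactors hp, ?_, ?_, hn, hd, ?_⟩
  · intro p hp
    have h1 := Nat.prime_of_mem_primeFactors hp
    have h2 : p ≠ 2 := by
      rintro rfl
      exact (Nat.not_even_iff_odd.2 hodd) (even_iff_two_dvd.2 (Nat.dvd_of_mem_primeFactors hp))
    have := h1.two_le
    omega
  · intro p hp
    exact (Nat.prime_of_mem_primeFactors hp).factorization_pos_of_dvd hD0
      (Nat.dvd_of_mem_primeFactors hp)
  · have h1 : ∏ p ∈ D.primeFactors, p ^ (D.factorization p) = D := by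
      conv_rhs => rw [← Nat.prod_factorization_pow_eq_self hD0]
      rfl
    have h2 : ∏ p ∈ D.primeFactors, Pool.Agent.Y959.Opn.sg D.factorization p = sig D := by
      unfold sig
      rw [Nat.sum_divisors hD0]
      rfl
    rw [h1, h2, h]

theorem dat_bound {D n d : ℕ} (hD : 1 < D) (hodd : Odd D) (hn : 0 < n) (hd : 0 < d)
    (h : d * sig D = n * D) (C : ℝ) (hC2 : 2 * (n : ℝ) ≤ C) (hC22 : 22 ≤ C) :
    (D : ℝ) ≤ C ^ (expo D - 1) := by
  have hD0 : D ≠ 0 := by omega
  have hC0 : 0 < C := by linarith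
  have h1 := bound (dat hD hodd hn hd h) C hC2 hC22
  have h2 : ∏ p ∈ D.primeFactors, (p : ℝ) ^ (D.factorization p) = (D : ℝ) := by
    have h3 : ∏ p ∈ D.primeFactors, p ^ (D.factorization p) = D := by
      conv_rhs => rw [← Nat.prod_factorization_pow_eq_self hD0]
      rfl
    exact_mod_cast h3
  rw [h2] at h1
  rw [Real.rpow_sub_one hC0.ne', le_div_iff₀ hC0, mul_comm]
  exact h1

/-- the exact relations for a coprime factorization, when `σ(D)` is even -/
theorem exact_rel {D E : ℕ} (hD : 1 < D) (hE : 1 < E) (hDo : Odd D) (hEo : Odd E)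
    (hs : sig D * sig E = 2 * (D * E)) (hev : Even (sig D)) :
    Odd (sig E) ∧
    Nat.gcd (sig E) D * sig D = 2 * Nat.gcd (sig D) E * D ∧
    Nat.gcd (sig D) E * sig E = Nat.gcd (sig E) D * E ∧
    Nat.gcd (sig D) E < Nat.gcd (sig E) D ∧ Nat.gcd (sig E) D < 2 * Nat.gcd (sig D) E ∧
    3 ≤ Nat.gcd (sig D) E := by
  have hsD := sig_gt hD
  have hsE := sig_gt hE
  have hoE : Odd (sig E) := by
    rw [← Nat.not_even_iff_odd]
    intro hcon
    obtain ⟨a, ha⟩ := hev
    obtain ⟨b, hb⟩ := hcon
    obtain ⟨x, hx⟩ := hDo.mul hEo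
    rw [hx, ha, hb] at hs
    have : 4 * (a * b) = 4 * x + 2 := by nlinarith
    omega
  set g := Nat.gcd (sig D) E with hg
  set h := Nat.gcd (sig E) D with hh
  have hg0 : 0 < g := Nat.gcd_pos_of_pos_right _ (by omega)
  have hh0 : 0 < h := Nat.gcd_pos_of_pos_right _ (by omega)
  obtain ⟨S1, E1, hSE, hS1, hE1⟩ := Nat.exists_coprime (sig D) E
  obtain ⟨T1, D1, hTD, hT1, hD1⟩ := Nat.exists_coprime (sig E) D
  rw [← hg] at hS1 hE1
  rw [← hh] at hT1 hD1
  have key : S1 * T1 = 2 * D1 * E1 := by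
    apply Nat.eq_of_mul_eq_mul_left (Nat.mul_pos hg0 hh0)
    calc g * h * (S1 * T1) = (S1 * g) * (T1 * h) := by ring
      _ = sig D * sig E := by rw [← hS1, ← hT1]
      _ = 2 * (D * E) := hs
      _ = 2 * ((D1 * h) * (E1 * g)) := by rw [← hD1, ← hE1]
      _ = _ := by ring
  have hT1o : Odd T1 := by
    rw [hT1] at hoE
    exact (Nat.odd_mul.1 hoE).1
  have hT1pos : 0 < T1 := hT1o.pos
  have h1 : T1 ∣ E1 := by
    have h2 : T1 ∣ 2 * D1 * E1 := ⟨S1, by rw [← key]; ring⟩
    have h3 : Nat.Coprime T1 (2 * D1) :=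
      Nat.Coprime.mul_right (Nat.coprime_two_right.2 hT1o) hTD
    exact h3.dvd_of_dvd_mul_left h2
  have h4 : E1 ∣ T1 := by
    have h5 : E1 ∣ S1 * T1 := ⟨2 * D1, by rw [key]; ring⟩
    exact hSE.symm.dvd_of_dvd_mul_left h5
  have h6 : T1 = E1 := Nat.dvd_antisymm h1 h4
  have h7 : S1 = 2 * D1 := by
    apply Nat.eq_of_mul_eq_mul_right hT1pos
    rw [key, h6]
  have e1 : h * sig D = 2 * g * D := by
    calc h * sig D = h * (S1 * g) := by rw [← hS1]
      _ = 2 * g * (D1 * h) := by rw [h7]; ring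
      _ = _ := by rw [← hD1]
  have e2 : g * sig E = h * E := by
    calc g * sig E = g * (T1 * h) := by rw [← hT1]
      _ = h * (E1 * g) := by rw [h6]; ring
      _ = _ := by rw [← hE1]
  have hlt1 : g < h := by
    by_contra hcon
    push Not at hcon
    have h8 : h * E ≤ g * E := Nat.mul_le_mul_right _ hcon
    have h9 : g * E < g * sig E := Nat.mul_lt_mul_of_pos_left hsE hg0
    omega
  have hlt2 : h < 2 * g := by
    by_contra hcon
    push Not at hcon
    have h8 : 2 * g * D ≤ h * D := Nat.mul_le_mul_right _ hcon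
    have h9 : h * D < h * sig D := Nat.mul_lt_mul_of_pos_left hsD hh0
    omega
  refine ⟨hoE, e1, e2, hlt1, hlt2, ?_⟩
  have hgo : Odd g := by
    rw [hE1] at hEo
    exact (Nat.odd_mul.1 hEo).2
  obtain ⟨x, hx⟩ := hgo
  omega

/-- the bounds, when `σ(D)` is even -/
theorem bounds {D E : ℕ} (hD : 1 < D) (hE : 1 < E) (hDo : Odd D) (hEo : Odd E)
    (hs : sig D * sig E = 2 * (D * E)) (hev : Even (sig D)) :
    (D : ℝ) ≤ (max (4 * (Nat.gcd (sig D) E : ℝ)) 22) ^ (expo D - 1) ∧
    (E : ℝ) ≤ (max (4 * (Nat.gcd (sig D) E : ℝ)) 22) ^ (expo E - 1) := by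
  obtain ⟨-, e1, e2, h1, h2, h3⟩ := exact_rel hD hE hDo hEo hs hev
  set g := Nat.gcd (sig D) E with hg
  set h := Nat.gcd (sig E) D with hh
  have h2' : (h : ℝ) ≤ 2 * g := by exact_mod_cast h2.le
  constructor
  · refine dat_bound hD hDo (n := 2 * g) (d := h) (by omega) (by omega) e1 _ ?_ (le_max_right _ _)
    refine le_trans (le_of_eq ?_) (le_max_left _ _)
    push_cast; ring
  · refine dat_bound hE hEo (n := h) (d := g) (by omega) (by omega) e2 _ ?_ (le_max_right _ _)
    refine le_trans ?_ (le_max_left _ _)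
    linarith

theorem sig_mul {D E : ℕ} (h : D.Coprime E) : sig (D * E) = sig D * sig E := by
  unfold sig
  exact h.sum_divisors_mul

/-- the arc relation of an odd perfect number `N`: `b` is a prime factor of `N` and divides
`σ(a ^ v)`, `v` the exponent of `a` in `N` -/
def Arc (N a b : ℕ) : Prop := b ∈ N.primeFactors ∧ b ∣ sig (a ^ N.factorization a)

/-- **Result.** Let `N` be an odd perfect number. For every factorization `N = D E` into coprime
factors `D, E > 1` let `g = gcd (σ(D), E)` and `h = gcd (σ(E), D)`. Exactly one of `σ(D)`, `σ(E)` is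
even; if it is `σ(D)` then `h σ(D) = 2 g D`, `g σ(E) = h E` and `3 ≤ g < h < 2 g` (and the same with
the roles of `D` and `E` exchanged if it is `σ(E)`). In all cases, with
`K = max (4 min (g, h), 22)`, `D ≤ K ^ (expo D - 1)`, `E ≤ K ^ (expo E - 1)` and
`N ≤ K ^ (expo D + expo E - 2)`. Any two prime factors `p`, `q` of `N` are joined by a chain of arcs
from `p` to `q`. -/
theorem result (N : ℕ) (hodd : Odd N) (hperf : N.Perfect) :
    (∀ D E : ℕ, N = D * E → D.Coprime E → 1 < D → 1 < E →
      ((Even (sig D) ∧ Odd (sig E)) ∨ (Odd (sig D) ∧ Even (sig E))) ∧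
      (Even (sig D) →
        Nat.gcd (sig E) D * sig D = 2 * Nat.gcd (sig D) E * D ∧
        Nat.gcd (sig D) E * sig E = Nat.gcd (sig E) D * E ∧
        3 ≤ Nat.gcd (sig D) E ∧ Nat.gcd (sig D) E < Nat.gcd (sig E) D ∧
        Nat.gcd (sig E) D < 2 * Nat.gcd (sig D) E) ∧
      ∀ K : ℝ, K = max (4 * (min (Nat.gcd (sig D) E : ℝ) (Nat.gcd (sig E) D))) 22 →
        (D : ℝ) ≤ K ^ (expo D - 1) ∧ (E : ℝ) ≤ K ^ (expo E - 1) ∧
        (N : ℝ) ≤ K ^ (expo D + expo E - 2)) ∧
    ∀ p ∈ N.primeFactors, ∀ q ∈ N.primeFactors, Relation.ReflTransGen (Arc N) p q := by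
  have hN0 : N ≠ 0 := by
    rintro rfl
    exact absurd hodd (by decide)
  have hsN : sig N = 2 * N := (Nat.perfect_iff_sum_divisors_eq_two_mul (by omega)).1 hperf
  have main : ∀ D E : ℕ, N = D * E → D.Coprime E → 1 < D → 1 < E →
      Odd D ∧ Odd E ∧ sig D * sig E = 2 * (D * E) := by
    intro D E hN hc _ _
    rw [hN] at hodd hsN
    rw [sig_mul hc] at hsN
    exact ⟨(Nat.odd_mul.1 hodd).1, (Nat.odd_mul.1 hodd).2, hsN⟩
  have par : ∀ D E : ℕ, Odd D → Odd E → 1 < D → 1 < E → sig D * sig E = 2 * (D * E) →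
      Even (sig D) ∨ (Odd (sig D) ∧ Even (sig E)) := by
    intro D E _ _ _ _ hs
    rcases Nat.even_or_odd (sig D) with h | h
    · exact Or.inl h
    · refine Or.inr ⟨h, ?_⟩
      have h1 : Even (sig D * sig E) := by rw [hs]; exact even_two_mul _
      rcases Nat.even_mul.1 h1 with h2 | h2
      · exact absurd h2 (Nat.not_even_iff_odd.2 h)
      · exact h2
  refine ⟨?_, ?_⟩
  · intro D E hN hc hD hE
    obtain ⟨hDo, hEo, hs⟩ := main D E hN hc hD hE
    have hs' : sig E * sig D = 2 * (E * D) := by rw [mul_comm, hs, mul_comm D E]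
    have hp := par D E hDo hEo hD hE hs
    have hall : ∀ K : ℝ, K = max (4 * (min (Nat.gcd (sig D) E : ℝ) (Nat.gcd (sig E) D))) 22 →
        (D : ℝ) ≤ K ^ (expo D - 1) ∧ (E : ℝ) ≤ K ^ (expo E - 1) := by
      intro K hK
      rcases hp with h | ⟨_, h⟩
      · obtain ⟨-, -, -, h1, -, -⟩ := exact_rel hD hE hDo hEo hs h
        have h2 : min (Nat.gcd (sig D) E : ℝ) (Nat.gcd (sig E) D) = Nat.gcd (sig D) E :=
          min_eq_left (by exact_mod_cast h1.le)
        rw [h2] at hK
        rw [hK]
        exact bounds hD hE hDo hEo hs h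
      · obtain ⟨-, -, -, h1, -, -⟩ := exact_rel hE hD hEo hDo hs' h
        have h2 : min (Nat.gcd (sig D) E : ℝ) (Nat.gcd (sig E) D) = Nat.gcd (sig E) D :=
          min_eq_right (by exact_mod_cast h1.le)
        rw [h2] at hK
        rw [hK]
        exact (bounds hE hD hEo hDo hs' h).symm
    refine ⟨?_, ?_, ?_⟩
    · rcases hp with h | h
      · exact Or.inl ⟨h, (exact_rel hD hE hDo hEo hs h).1⟩
      · exact Or.inr h
    · intro h
      obtain ⟨-, h1, h2, h3, h4, h5⟩ := exact_rel hD hE hDo hEo hs h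
      exact ⟨h1, h2, h5, h3, h4⟩
    · intro K hK
      obtain ⟨h1, h2⟩ := hall K hK
      refine ⟨h1, h2, ?_⟩
      have hK0 : 0 < K := by
        rw [hK]
        exact lt_of_lt_of_le (by norm_num) (le_max_right _ _)
      rw [hN]
      push_cast
      calc (D : ℝ) * E ≤ K ^ (expo D - 1) * K ^ (expo E - 1) :=
            mul_le_mul h1 h2 (Nat.cast_nonneg _) (Real.rpow_nonneg hK0.le _)
        _ = _ := by rw [← Real.rpow_add hK0]; congr 1; ring
  · intro p hp q hq
    by_contra hcon
    classical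
    set S : Finset ℕ := N.primeFactors.filter (fun b => Relation.ReflTransGen (Arc N) p b) with hS
    set T : Finset ℕ := N.primeFactors.filter (fun b => ¬ Relation.ReflTransGen (Arc N) p b) with hT
    have hpS : p ∈ S := Finset.mem_filter.2 ⟨hp, Relation.ReflTransGen.refl⟩
    have hqT : q ∈ T := Finset.mem_filter.2 ⟨hq, hcon⟩
    have hprod : N = (∏ b ∈ S, b ^ N.factorization b) * ∏ b ∈ T, b ^ N.factorization b := by
      rw [Finset.prod_filter_mul_prod_filter_not]
      conv_lhs => rw [← Nat.prod_factorization_pow_eq_self hN0]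
      rfl
    have hcop : Nat.Coprime (∏ b ∈ S, b ^ N.factorization b) (∏ b ∈ T, b ^ N.factorization b) := by
      apply Nat.Coprime.prod_left
      intro a ha
      apply Nat.Coprime.prod_right
      intro b hb
      have ha' := Finset.mem_filter.1 ha
      have hb' := Finset.mem_filter.1 hb
      have hab : a ≠ b := by
        rintro rfl
        exact hb'.2 ha'.2
      exact Nat.Coprime.pow _ _ ((Nat.coprime_primes (Nat.prime_of_mem_primeFactors ha'.1)
        (Nat.prime_of_mem_primeFactors hb'.1)).2 hab)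
    have hgt : ∀ (Q : Finset ℕ) (x : ℕ), Q ⊆ N.primeFactors → x ∈ Q →
        1 < ∏ b ∈ Q, b ^ N.factorization b := by
      intro Q x hQ hx
      have h1 : x ^ N.factorization x ∣ ∏ b ∈ Q, b ^ N.factorization b :=
        Finset.dvd_prod_of_mem (fun b => b ^ N.factorization b) hx
      have h2 : 0 < ∏ b ∈ Q, b ^ N.factorization b :=
        Finset.prod_pos (fun b hb => pow_pos (Nat.prime_of_mem_primeFactors (hQ hb)).pos _)
      have h3 := Nat.le_of_dvd h2 h1
      have h4 := Nat.prime_of_mem_primeFactors (hQ hx)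
      have h5 := h4.factorization_pos_of_dvd hN0 (Nat.dvd_of_mem_primeFactors (hQ hx))
      have h6 : 1 < x ^ N.factorization x := Nat.one_lt_pow (by omega) h4.one_lt
      omega
    set D := ∏ b ∈ S, b ^ N.factorization b with hD
    set E := ∏ b ∈ T, b ^ N.factorization b with hE
    have hD1 : 1 < D := hgt S p (Finset.filter_subset _ _) hpS
    have hE1 : 1 < E := hgt T q (Finset.filter_subset _ _) hqT
    obtain ⟨hDo, hEo, hs⟩ := main D E hprod hcop hD1 hE1
    have hs' : sig E * sig D = 2 * (E * D) := by rw [mul_comm, hs, mul_comm D E]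
    have hg : 1 < Nat.gcd (sig D) E := by
      rcases par D E hDo hEo hD1 hE1 hs with h | ⟨_, h⟩
      · have := (exact_rel hD1 hE1 hDo hEo hs h).2.2.2.2.2
        omega
      · obtain ⟨-, -, -, h1, -, h2⟩ := exact_rel hE1 hD1 hEo hDo hs' h
        omega
    obtain ⟨r, hr, hrg⟩ := Nat.exists_prime_and_dvd (by omega : Nat.gcd (sig D) E ≠ 1)
    have hrE : r ∣ E := hrg.trans (Nat.gcd_dvd_right _ _)
    have hrD : r ∣ sig D := hrg.trans (Nat.gcd_dvd_left _ _)
    have hrT : r ∈ T := by
      obtain ⟨b, hb, hrb⟩ := (hr.prime.dvd_finsetProd_iff _).1 hrE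
      have h1 := hr.dvd_of_dvd_pow hrb
      have h2 := (Nat.prime_dvd_prime_iff_eq hr
        (Nat.prime_of_mem_primeFactors (Finset.mem_filter.1 hb).1)).1 h1
      rw [h2]; exact hb
    have hsig : ∀ Q : Finset ℕ, Q ⊆ N.primeFactors →
        sig (∏ b ∈ Q, b ^ N.factorization b) = ∏ b ∈ Q, sig (b ^ N.factorization b) := by
      intro Q
      induction Q using Finset.induction_on with
      | empty => intro _; simp [sig]
      | insert a Q ha ih =>
        intro hQ
        rw [Finset.prod_insert ha, Finset.prod_insert ha, sig_mul, ih (fun b hb => hQ (Finset.mem_insert_of_mem hb))]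
        apply Nat.Coprime.prod_right
        intro b hb
        have hab : a ≠ b := by
          rintro rfl
          exact ha hb
        exact Nat.Coprime.pow _ _ ((Nat.coprime_primes
          (Nat.prime_of_mem_primeFactors (hQ (Finset.mem_insert_self _ _)))
          (Nat.prime_of_mem_primeFactors (hQ (Finset.mem_insert_of_mem hb)))).2 hab)
    rw [hD, hsig S (Finset.filter_subset _ _)] at hrD
    obtain ⟨b, hb, hrb⟩ := (hr.prime.dvd_finsetProd_iff _).1 hrD
    have hb' := Finset.mem_filter.1 hb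
    have hrT' := Finset.mem_filter.1 hrT
    exact hrT'.2 (hb'.2.tail ⟨hrT'.1, hrb⟩)

end Pool.Agent.Results.MP_f02ea4_nt.CutCapacities
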