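import Pool.Agent.Y959.Opn.Main

/-!
# The small prime factors of an odd perfect number, with the exponents

If `q` is a prime factor of an odd perfect number `N` then
`q < t * 6 ^ (∏ 4 v_p / (v_p + 1))`, where `t` is the number of the prime factors of `N` which are
at least `q` and the product runs over the prime factors `p < q` of `N`, with their exponents
`v_p`.
-/

namespace Pool.Agent.Results.MP_f02ea4_nt.IthSmallestPrime

open Pool.Agent.Y959.Opn

/-- **The i-th smallest prime factor of an odd perfect number.** -/
theorem result (N : ℕ) (hodd : Odd N) (hperf : N.Perfect) (q : ℕ) (hq : q ∈ N.primeFactors) :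
    (q : ℝ) < ((N.primeFactors.filter (fun p => q ≤ p)).card : ℝ) *
        (6 : ℝ) ^ (∏ p ∈ N.primeFactors.filter (fun p => p < q),
          4 * (N.factorization p : ℝ) / (N.factorization p + 1)) ∧
      (q : ℝ) < ((N.primeFactors.filter (fun p => q ≤ p)).card : ℝ) *
        (6 : ℝ) ^ (4 ^ (N.primeFactors.filter (fun p => p < q)).card) := by
  have h := small_prime hodd hperf hq
  have hw : ∏ p ∈ N.primeFactors.filter (fun p => p < q), (2 * w1 N.factorization p) =
      ∏ p ∈ N.primeFactors.filter (fun p => p < q),
          4 * (N.factorization p : ℝ) / (N.factorization p + 1) := by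
    apply Finset.prod_congr rfl
    intro p _
    unfold w1
    ring
  rw [hw] at h
  refine ⟨h, h.trans_le ?_⟩
  have h1 : ∏ p ∈ N.primeFactors.filter (fun p => p < q),
          4 * (N.factorization p : ℝ) / (N.factorization p + 1) ≤
      (4 : ℝ) ^ (N.primeFactors.filter (fun p => p < q)).card := by
    rw [← Finset.prod_const]
    apply Finset.prod_le_prod
    · intro p _
      positivity
    · intro p _
      rw [div_le_iff₀ (by positivity)]
      nlinarith [Nat.cast_nonneg (α := ℝ) (N.factorization p)]
  have h2 : (6 : ℝ) ^ (∏ p ∈ N.primeFactors.filter (fun p => p < q),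
          4 * (N.factorization p : ℝ) / (N.factorization p + 1)) ≤
      (6 : ℝ) ^ (4 ^ (N.primeFactors.filter (fun p => p < q)).card) := by
    rw [← Real.rpow_natCast 6]
    apply Real.rpow_le_rpow_of_exponent_le (by norm_num)
    push_cast
    exact h1
  exact mul_le_mul_of_nonneg_left h2 (by positivity)

end Pool.Agent.Results.MP_f02ea4_nt.IthSmallestPrime
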