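import Pool.Agent.V11299.SR.Bounds

/-!
# Odd perfect numbers with a given radical

For a finite set `P` of `k` primes there are at most `k * k! * exp (√k)` odd perfect numbers whose
set of prime factors is `P` (at most `k! * exp (√k)` if the Euler prime is given, too). More
generally the abundancy index `n ↦ σ(n) / n`, restricted to the integers whose set of prime factors
is `P`, takes every real value at most
`∏_{j ≤ k} (j + ∑_{p ∈ P} ⌊log_p j⌋) ≤ 1 · 3 · 5 ⋯ (2 k - 1)` times.

Proof: with `b_p = v_p(n) + 1` the equation reads `∏ (1 - p ^ (- b_p)) = θ`, where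
`θ = α ∏ (1 - 1 / p)` is given. The least of the `p ^ b_p` lies in `[1 / (1 - θ), k / (1 - θ)]`,
so there are few choices for it, and one proceeds by induction. For odd perfect numbers all the
`b_p` with one exception are odd.
-/

open Finset Pool.Agent.V11299.SR

namespace Pool.Agent.Results.MP_f02ea4_nt.SameRadical

/-- the positive integers `n` whose set of prime factors is `P` and with `σ(n) = α n` -/
def Abund (P : Finset ℕ) (α : ℝ) : Set ℕ :=
  {n | 0 < n ∧ n.primeFactors = P ∧ ((∑ d ∈ n.divisors, d : ℕ) : ℝ) = α * n}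

/-- the odd perfect numbers whose set of prime factors is `P` -/
def OddPerfect (P : Finset ℕ) : Set ℕ :=
  {n | Odd n ∧ n.Perfect ∧ n.primeFactors = P}

/-- the odd perfect numbers whose set of prime factors is `P` and with an odd exponent of `q` -/
def OddPerfectEuler (P : Finset ℕ) (q : ℕ) : Set ℕ :=
  {n | n ∈ OddPerfect P ∧ Odd (n.factorization q)}

/-- the vector of the exponents, increased by one -/
def vec (n : ℕ) : ℕ → ℕ := fun p => if p ∈ n.primeFactors then n.factorization p + 1 else 0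

lemma vec_inj {n m : ℕ} (hn : n ≠ 0) (hm : m ≠ 0) (h : vec n = vec m) : n = m := by
  apply Nat.eq_of_factorization_eq hn hm
  intro p
  have hp := congrFun h p
  unfold vec at hp
  by_cases h1 : p ∈ n.primeFactors <;> by_cases h2 : p ∈ m.primeFactors
  · rw [if_pos h1, if_pos h2] at hp
    omega
  · rw [if_pos h1, if_neg h2] at hp
    omega
  · rw [if_neg h1, if_pos h2] at hp
    omega
  · rw [← Nat.support_factorization, Finsupp.notMem_support_iff] at h1 h2
    rw [h1, h2]

lemma factor (p a : ℕ) (hp : p.Prime) :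
    ((∑ i ∈ range (a + 1), p ^ i : ℕ) : ℝ) * (1 - (p : ℝ)⁻¹) =
      (p : ℝ) ^ a * (1 - ((p : ℝ) ^ (a + 1))⁻¹) := by
  have h2 : (1 : ℝ) < p := by exact_mod_cast hp.one_lt
  have h0 : (p : ℝ) ≠ 0 := by positivity
  push_cast
  have h := geom_sum_mul (p : ℝ) (a + 1)
  have h3 : (∑ i ∈ range (a + 1), (p : ℝ) ^ i) * (1 - (p : ℝ)⁻¹)
      = ((∑ i ∈ range (a + 1), (p : ℝ) ^ i) * ((p : ℝ) - 1)) * (p : ℝ)⁻¹ := by
    field_simp
  rw [h3, h]
  field_simp
  ring

lemma theta {n : ℕ} {P : Finset ℕ} {α : ℝ} (h : n ∈ Abund P α) :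
    ∏ p ∈ P, (1 - ((p : ℝ) ^ (vec n p))⁻¹) = α * ∏ p ∈ P, (1 - (p : ℝ)⁻¹) := by
  obtain ⟨hn, hP, hα⟩ := h
  have hn0 : n ≠ 0 := by omega
  have h1 := Nat.sum_divisors hn0
  rw [h1, hP] at hα
  have hprod : (n : ℝ) = ∏ p ∈ P, (p : ℝ) ^ (n.factorization p) := by
    conv_lhs => rw [← Nat.prod_factorization_pow_eq_self hn0]
    rw [Finsupp.prod, Nat.support_factorization, hP]
    push_cast
    rfl
  have hpr : ∀ p ∈ P, p.Prime := by
    intro p hp
    rw [← hP] at hp
    exact Nat.prime_of_mem_primeFactors hp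
  have h2 : (∏ p ∈ P, (p : ℝ) ^ (n.factorization p)) * ∏ p ∈ P, (1 - ((p : ℝ) ^ (vec n p))⁻¹)
      = (∏ p ∈ P, (p : ℝ) ^ (n.factorization p)) * (α * ∏ p ∈ P, (1 - (p : ℝ)⁻¹)) := by
    rw [← prod_mul_distrib]
    have h3 : ∏ p ∈ P, ((p : ℝ) ^ (n.factorization p) * (1 - ((p : ℝ) ^ (vec n p))⁻¹))
        = ∏ p ∈ P, (((∑ i ∈ range (n.factorization p + 1), p ^ i : ℕ) : ℝ) * (1 - (p : ℝ)⁻¹)) := by
      apply prod_congr rfl
      intro p hp
      rw [factor p _ (hpr p hp)]
      unfold vec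
      rw [hP, if_pos hp]
    rw [h3, prod_mul_distrib, ← Nat.cast_prod, hα, hprod]
    ring
  have h4 : (∏ p ∈ P, (p : ℝ) ^ (n.factorization p)) ≠ 0 := by
    rw [← hprod]; exact_mod_cast hn0
  exact mul_left_cancel₀ h4 h2

/-- transfer of a bound -/
lemma transfer (m : ℕ) (hm : 1 ≤ m) (c : ℕ → ℕ) (P : Finset ℕ) (hP : ∀ p ∈ P, p.Prime) (α : ℝ)
    (S : Set ℕ) (hS : ∀ n ∈ S, n ∈ Abund P α) (hc : ∀ n ∈ S, ∀ p ∈ P, vec n p % m = c p) :
    S.Finite ∧ S.ncard ≤ G m P P.card := by
  obtain ⟨F, hF, hcard⟩ := count m hm c P (fun p hp => (hP p hp).two_le) P.card P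
    (Subset.refl _) rfl (α * ∏ p ∈ P, (1 - (p : ℝ)⁻¹))
  have hmaps : Set.MapsTo vec S (F : Set (ℕ → ℕ)) := by
    intro n hn
    apply hF
    refine ⟨?_, ?_, theta (hS n hn)⟩
    · intro p hp
      refine ⟨?_, hc n hn p hp⟩
      unfold vec
      rw [(hS n hn).2.1, if_pos hp]
      omega
    · intro p hp
      unfold vec
      rw [(hS n hn).2.1, if_neg hp]
  have hinj : Set.InjOn vec S := by
    intro n hn n' hn' h
    have h1 := (hS n hn).1
    have h2 := (hS n' hn').1
    exact vec_inj (by omega) (by omega) h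
  refine ⟨Set.Finite.of_injOn hmaps hinj F.finite_toSet, ?_⟩
  calc S.ncard ≤ (F : Set (ℕ → ℕ)).ncard :=
        Set.ncard_le_ncard_of_injOn vec hmaps hinj F.finite_toSet
    _ = F.card := Set.ncard_coe_finset F
    _ ≤ _ := hcard

lemma mem_abund {P : Finset ℕ} {n : ℕ} (h : n ∈ OddPerfect P) : n ∈ Abund P 2 := by
  obtain ⟨h1, h2, h3⟩ := h
  have hpos : 0 < n := h1.pos
  refine ⟨hpos, h3, ?_⟩
  rw [(Nat.perfect_iff_sum_divisors_eq_two_mul hpos).1 h2]
  push_cast
  ring

lemma sum_parity (p a : ℕ) (hp : Odd p) : (∑ i ∈ range (a + 1), p ^ i) % 2 = (a + 1) % 2 := by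
  have h : (∑ i ∈ range (a + 1), p ^ i) ≡ ∑ i ∈ range (a + 1), 1 [MOD 2] := by
    unfold Nat.ModEq
    rw [Finset.sum_nat_mod, Finset.sum_nat_mod (range (a + 1)) 2 (fun _ => 1)]
    congr 1
    apply sum_congr rfl
    intro i _
    have := Nat.odd_iff.1 (hp.pow (n := i))
    omega
  rw [h]; simp

/-- Euler: exactly one exponent is odd -/
lemma euler {P : Finset ℕ} {n : ℕ} (h : n ∈ OddPerfect P) :
    ∃ q ∈ P, Odd (n.factorization q) ∧ ∀ p ∈ P, p ≠ q → Even (n.factorization p) := by
  classical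
  obtain ⟨h1, h2, h3⟩ := h
  have hpos : 0 < n := h1.pos
  have hs := (Nat.perfect_iff_sum_divisors_eq_two_mul hpos).1 h2
  rw [Nat.sum_divisors (by omega), h3] at hs
  have hodd : ∀ p ∈ P, Odd p := by
    intro p hp
    rw [← h3] at hp
    exact h1.of_dvd_nat (Nat.dvd_of_mem_primeFactors hp)
  have hn2 : n % 2 = 1 := Nat.odd_iff.1 h1
  have hex : ∃ q ∈ P, Odd (n.factorization q) := by
    by_contra hcon
    push Not at hcon
    have : Odd (∏ p ∈ P, ∑ i ∈ range (n.factorization p + 1), p ^ i) := by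
      apply Finset.prod_induction _ Odd (fun a b ha hb => ha.mul hb) odd_one
      intro p hp
      have h4 := hcon p hp
      have h5 := sum_parity p (n.factorization p) (hodd p hp)
      rw [Nat.odd_iff, h5]
      rw [Nat.not_odd_iff_even, Nat.even_iff] at h4
      omega
    rw [hs, Nat.odd_iff] at this
    omega
  obtain ⟨q, hq, hqo⟩ := hex
  refine ⟨q, hq, hqo, ?_⟩
  intro p hp hpq
  by_contra hcon
  rw [Nat.not_even_iff_odd] at hcon
  have hev : ∀ r ∈ P, Odd (n.factorization r) → 2 ∣ ∑ i ∈ range (n.factorization r + 1), r ^ i := by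
    intro r hr hro
    have h5 := sum_parity r (n.factorization r) (hodd r hr)
    rw [Nat.odd_iff] at hro
    omega
  have h4 : 2 * 2 ∣ ∏ p ∈ P, ∑ i ∈ range (n.factorization p + 1), p ^ i := by
    rw [← mul_prod_erase P _ hq]
    apply mul_dvd_mul (hev q hq hqo)
    exact (hev p hp hcon).trans (dvd_prod_of_mem _ (mem_erase.2 ⟨hpq, hp⟩))
  rw [hs] at h4
  omega

lemma euler_bound (P : Finset ℕ) (q : ℕ) :
    (OddPerfectEuler P q).Finite ∧
      ((OddPerfectEuler P q).ncard : ℝ) ≤ (P.card.factorial : ℝ) * Real.exp (Real.sqrt P.card) := by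
  by_cases hne : (OddPerfectEuler P q).Nonempty
  swap
  · rw [Set.not_nonempty_iff_eq_empty] at hne
    rw [hne]
    refine ⟨Set.finite_empty, ?_⟩
    simp only [Set.ncard_empty, Nat.cast_zero]
    positivity
  obtain ⟨n0, ⟨h1, h2, h3⟩, h4⟩ := hne
  have hP : ∀ p ∈ P, p.Prime := by
    intro p hp
    rw [← h3] at hp
    exact Nat.prime_of_mem_primeFactors hp
  have hodd : ∀ p ∈ P, Odd p := by
    intro p hp
    rw [← h3] at hp
    exact h1.of_dvd_nat (Nat.dvd_of_mem_primeFactors hp)
  have key := transfer 2 (by norm_num) (fun p => if p = q then 0 else 1) P hP 2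
    (OddPerfectEuler P q) (fun n hn => mem_abund hn.1) (by
      intro n hn p hp
      obtain ⟨r, hr, hro, hrest⟩ := euler hn.1
      have hqr : q = r := by
        by_contra hcon
        have hqP : q ∈ P := by
          rw [← hn.1.2.2, ← Nat.support_factorization, Finsupp.mem_support_iff]
          intro h0
          have := hn.2
          rw [h0] at this
          exact absurd this (by decide)
        have h5 := hrest q hqP hcon
        exact (Nat.not_even_iff_odd.2 hn.2) h5
      unfold vec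
      rw [hn.1.2.2, if_pos hp]
      by_cases hpq : p = q
      · subst hpq
        have h5 := Nat.odd_iff.1 hn.2
        simp only [if_true]
        omega
      · rw [if_neg hpq]
        have h5 := Nat.even_iff.1 (hrest p hp (hqr ▸ hpq))
        omega)
  refine ⟨key.1, ?_⟩
  calc ((OddPerfectEuler P q).ncard : ℝ) ≤ (G 2 P P.card : ℝ) := by exact_mod_cast key.2
    _ ≤ _ := G_two_le P hP hodd P.card

/-- **Main theorem.** Let `P` be a finite set of primes and `k = #P`.
(1) For every real `α` the number of the positive integers `n` with set of prime factors `P` and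
`σ(n) = α n` is at most `∏_{j ≤ k} (j + ∑_{p ∈ P} ⌊log_p j⌋)`, and this is at most
`1 · 3 · 5 ⋯ (2 k - 1)`.
(2) For every `q` the number of the odd perfect numbers with set of prime factors `P` and Euler
prime `q` is at most `k! exp (√k)`.
(3) The number of the odd perfect numbers with set of prime factors `P` is at most
`k k! exp (√k)`. -/
theorem _root_.Pool.Agent.Results.MP_f02ea4_nt.SameRadical.result
    (P : Finset ℕ) (hP : ∀ p ∈ P, p.Prime) :
    (∀ α : ℝ, (Abund P α).Finite ∧
      (Abund P α).ncard ≤ ∏ j ∈ Icc 1 P.card, (j + ∑ p ∈ P, Nat.log p j)) ∧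
    ∏ j ∈ Icc 1 P.card, (j + ∑ p ∈ P, Nat.log p j) ≤ (2 * P.card - 1).doubleFactorial ∧
    (∀ q : ℕ, (OddPerfectEuler P q).Finite ∧
      ((OddPerfectEuler P q).ncard : ℝ) ≤ (P.card.factorial : ℝ) * Real.exp (Real.sqrt P.card)) ∧
    ((OddPerfect P).Finite ∧
      ((OddPerfect P).ncard : ℝ) ≤
        P.card * ((P.card.factorial : ℝ) * Real.exp (Real.sqrt P.card))) := by
  classical
  have hG : G 1 P P.card = ∏ j ∈ Icc 1 P.card, (j + ∑ p ∈ P, Nat.log p j) := by
    unfold G
    simp only [pow_one]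
  refine ⟨?_, ?_, euler_bound P, ?_⟩
  · intro α
    rw [← hG]
    exact transfer 1 le_rfl (fun _ => 0) P hP α (Abund P α) (fun n hn => hn)
      (fun n _ p _ => Nat.mod_one _)
  · rw [← hG]
    exact G_one_le P hP P.card
  · have hcover : OddPerfect P ⊆ ⋃ q ∈ P, OddPerfectEuler P q := by
      intro n hn
      obtain ⟨q, hq, hqo, -⟩ := euler hn
      simp only [Set.mem_iUnion]
      exact ⟨q, hq, hn, hqo⟩
    have hfin : (⋃ q ∈ P, OddPerfectEuler P q).Finite :=
      Set.Finite.biUnion P.finite_toSet (fun q _ => (euler_bound P q).1)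
    refine ⟨hfin.subset hcover, ?_⟩
    have h1 : (OddPerfect P).ncard ≤ ∑ q ∈ P, (OddPerfectEuler P q).ncard :=
      (Set.ncard_le_ncard hcover hfin).trans (Finset.set_ncard_biUnion_le P _)
    calc ((OddPerfect P).ncard : ℝ) ≤ ((∑ q ∈ P, (OddPerfectEuler P q).ncard : ℕ) : ℝ) := by
          exact_mod_cast h1
      _ = ∑ q ∈ P, ((OddPerfectEuler P q).ncard : ℝ) := by push_cast; rfl
      _ ≤ ∑ _q ∈ P, (P.card.factorial : ℝ) * Real.exp (Real.sqrt P.card) :=
          sum_le_sum (fun q _ => (euler_bound P q).2)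
      _ = P.card * ((P.card.factorial : ℝ) * Real.exp (Real.sqrt P.card)) := by
          rw [sum_const, nsmul_eq_mul]

end Pool.Agent.Results.MP_f02ea4_nt.SameRadical
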