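import Pool.Agent.Y959.Sv.Main

/-!
# Prime factors of odd perfect numbers whose component has few divisors

For every `B` the prime factors `p` of an odd perfect number `N` for which `v_p + 1` has a prime
factor at most `B` are rare: at most `C x / (log x) ^ 2` of them are at most `x`, with `C`
depending only on `B`.
-/

namespace Pool.Agent.Results.MP_f02ea4_nt.SmallExponentDivisors

/-- **Prime factors `p` such that `v_p + 1` has a small prime factor are rare.** -/
theorem result (B : ℕ) : ∃ C : ℝ, 0 < C ∧ ∀ N : ℕ, Odd N → N.Perfect → ∀ x : ℕ, 2 ≤ x →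
    (({p ∈ N.primeFactors | p ≤ x ∧ (N.factorization p + 1).minFac ≤ B}.card : ℕ) : ℝ) ≤
      C * (x / Real.log x ^ 2) :=
  Pool.Agent.Y959.Sv.count_bad B

end Pool.Agent.Results.MP_f02ea4_nt.SmallExponentDivisors
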